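import Pool.Agent.Helper38.T5.Sort

/-! # Sorting an even permutation by cycles of a fixed odd length, logarithmic last phase -/

set_option autoImplicit false

namespace Pool.Agent.Helper96.W

open Equiv Finset Pool.Agent.Helper38.T5

theorem formPerm_append_cons {α : Type*} [DecidableEq α] (l l' : List α) (b : α) :
    List.formPerm (l ++ b :: l') = List.formPerm (l ++ [b]) * List.formPerm (b :: l') := by
  induction l with
  | nil => simp
  | cons a l ih =>
    cases l with
    | nil => simp [List.formPerm_cons_cons]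
    | cons c l =>
      simp only [List.cons_append] at ih ⊢
      rw [List.formPerm_cons_cons, ih, List.formPerm_cons_cons, mul_assoc]

/-- A cycle as a list starting at a given point of its support. -/
theorem exists_list {n : ℕ} {U : Perm (Fin n)} (hU : U.IsCycle) {x : Fin n} (hx : x ∈ U.support) :
    ∃ l : List (Fin n), (x :: l).Nodup ∧ List.formPerm (x :: l) = U ∧
      ∀ y, y ∈ x :: l ↔ y ∈ U.support := by
  have h1 : U x ≠ x := Perm.mem_support.1 hx
  have hne : U.toList x ≠ [] := by
    intro h
    rw [Perm.toList_eq_nil_iff] at h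
    exact h hx
  have hhead : (U.toList x).head hne = x := by
    rw [List.head_eq_getElem, Perm.getElem_toList]
    simp
  have e : x :: (U.toList x).tail = U.toList x := by
    conv_rhs => rw [← List.cons_head_tail hne]
    rw [hhead]
  refine ⟨(U.toList x).tail, ?_, ?_, ?_⟩
  · rw [e]; exact Perm.nodup_toList _ _
  · rw [e, Perm.formPerm_toList, hU.cycleOf_eq h1]
  · intro y
    rw [e, Perm.mem_toList_iff]
    constructor
    · rintro ⟨h2, h3⟩
      exact h2.mem_support_iff.1 h3
    · intro hy
      exact ⟨hU.sameCycle h1 (Perm.mem_support.1 hy), hx⟩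

/-- The product of two cycles with exactly one common point is a cycle. -/
theorem mul_isCycle {n : ℕ} {U V : Perm (Fin n)} (hU : U.IsCycle) (hV : V.IsCycle) {x : Fin n}
    (h : ∀ y, y ∈ U.support ∧ y ∈ V.support ↔ y = x) :
    (U * V).IsCycle ∧ (U * V).support.card + 1 = U.support.card + V.support.card := by
  have hx := (h x).2 rfl
  obtain ⟨l1, hn1, hf1, hm1⟩ := exists_list hU hx.1
  obtain ⟨l2, hn2, hf2, hm2⟩ := exists_list hV hx.2
  have hrot : List.formPerm (l1 ++ [x]) = U := by
    rw [← hf1, ← List.formPerm_rotate (x :: l1) hn1 1]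
    simp
  have e : U * V = List.formPerm (l1 ++ x :: l2) := by
    rw [formPerm_append_cons, hrot, hf2]
  have hl1 : ∀ y ∈ l1, y ∈ U.support ∧ y ≠ x := by
    intro y hy
    refine ⟨(hm1 y).1 (List.mem_cons_of_mem _ hy), ?_⟩
    rintro rfl
    exact (List.nodup_cons.1 hn1).1 hy
  have hnd : (l1 ++ x :: l2).Nodup := by
    rw [List.nodup_append]
    refine ⟨(List.nodup_cons.1 hn1).2, hn2, ?_⟩
    intro a ha b hb hab
    subst hab
    exact (hl1 a ha).2 ((h a).1 ⟨(hl1 a ha).1, (hm2 a).1 hb⟩)
  have c1 : (x :: l1).length = U.support.card := by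
    rw [← List.toFinset_card_of_nodup hn1]
    congr 1
    ext y
    rw [List.mem_toFinset, hm1]
  have c2 : (x :: l2).length = V.support.card := by
    rw [← List.toFinset_card_of_nodup hn2]
    congr 1
    ext y
    rw [List.mem_toFinset, hm2]
  have g1 := hU.two_le_card_support
  have g2 := hV.two_le_card_support
  have hlen : (l1 ++ x :: l2).length + 1 = U.support.card + V.support.card := by
    rw [← c1, ← c2, List.length_append, List.length_cons]
    simp only [List.length_cons]
    omega
  rw [e]
  refine ⟨List.isCycle_formPerm hnd (by omega), ?_⟩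
  rw [List.support_formPerm_of_nodup _ hnd, List.toFinset_card_of_nodup hnd, hlen]
  intro y hy
  rw [hy] at hlen
  simp only [List.length_singleton] at hlen
  omega

/-- Every odd cycle of length at most `2t+1` is a product of two `(2t+1)`-cycles. -/
theorem split_cycle {n t i : ℕ} (hi : 1 ≤ i) (hit : i ≤ t) (hn : 2 * t + 1 ≤ n)
    (c : Perm (Fin n)) (hc : c.IsCycle) (hcc : c.support.card = 2 * i + 1) :
    ∃ a b : Perm (Fin n), (a.IsCycle ∧ a.support.card = 2 * t + 1) ∧
      (b.IsCycle ∧ b.support.card = 2 * t + 1) ∧ a * b = c := by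
  have hord : orderOf c = 2 * i + 1 := by rw [hc.orderOf, hcc]
  set U : Perm (Fin n) := c ^ (i + 1) with hUdef
  have hU : U.IsCycle := by
    rw [hUdef, hc.pow_iff, hord]
    rw [show 2 * i + 1 = i + (i + 1) by ring]
    simp
  have hUs : U.support = c.support := by
    rw [hUdef, hc.support_pow_eq_iff, hord]
    intro h
    have := Nat.le_of_dvd (by omega) h
    omega
  have hU2 : U * U = c := by
    rw [hUdef, ← pow_add, show i + 1 + (i + 1) = orderOf c + 1 by rw [hord]; ring, pow_succ,
      pow_orderOf_eq_one, one_mul]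
  rcases Nat.eq_or_lt_of_le hit with rfl | hlt
  · exact ⟨U, U, ⟨hU, by rw [hUs, hcc]⟩, ⟨hU, by rw [hUs, hcc]⟩, hU2⟩
  · obtain ⟨x, hx⟩ : ∃ x, x ∈ U.support := by
      have : 0 < U.support.card := by rw [hUs, hcc]; omega
      exact card_pos.1 this
    have hcompl : ((U.support)ᶜ).card = n - (2 * i + 1) := by
      rw [card_compl, hUs, hcc, Fintype.card_fin]
    obtain ⟨W, hW, hWc⟩ := exists_subset_card_eq (s := (U.support)ᶜ) (n := 2 * t - 2 * i)
      (by omega)
    have hxW : x ∉ W := fun h => by
      have := hW h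
      rw [mem_compl] at this
      exact this hx
    set L : List (Fin n) := x :: W.toList with hL
    have hLnd : L.Nodup := by
      rw [hL, List.nodup_cons, mem_toList]
      exact ⟨hxW, W.nodup_toList⟩
    have hLlen : L.length = 2 * t - 2 * i + 1 := by
      rw [hL, List.length_cons, length_toList, hWc]
    set V : Perm (Fin n) := List.formPerm L with hVdef
    have hV : V.IsCycle := List.isCycle_formPerm hLnd (by omega)
    have hVs : V.support = L.toFinset := by
      refine List.support_formPerm_of_nodup L hLnd ?_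
      intro y e
      rw [e] at hLlen
      simp only [List.length_singleton] at hLlen
      omega
    have hVc : V.support.card = 2 * t - 2 * i + 1 := by
      rw [hVs, List.toFinset_card_of_nodup hLnd, hLlen]
    have hinter : ∀ y, y ∈ U.support ∧ y ∈ V.support ↔ y = x := by
      intro y
      rw [hVs, List.mem_toFinset, hL, List.mem_cons, mem_toList]
      constructor
      · rintro ⟨h1, h2 | h2⟩
        · exact h2
        · have := hW h2
          rw [mem_compl] at this
          exact absurd h1 this
      · rintro rfl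
        exact ⟨hx, Or.inl rfl⟩
    have hinter' : ∀ y, y ∈ (V⁻¹).support ∧ y ∈ U.support ↔ y = x := by
      intro y
      rw [Perm.support_inv, and_comm]
      exact hinter y
    obtain ⟨h1, h2⟩ := mul_isCycle hU hV hinter
    obtain ⟨h3, h4⟩ := mul_isCycle hV.inv hU hinter'
    rw [Perm.support_inv] at h4
    rw [hVc, hUs, hcc] at h2 h4
    refine ⟨U * V, V⁻¹ * U, ⟨h1, by omega⟩, ⟨h3, by omega⟩, ?_⟩
    rw [← hU2]; group

theorem sign_odd {n i : ℕ} {c : Perm (Fin n)} (hc : c.IsCycle)
    (hcc : c.support.card = 2 * i + 1) : Perm.sign c = 1 := by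
  rw [hc.sign, hcc, pow_succ, pow_mul]; simp

/-- Support of size at most three. -/
theorem sort_three {n t : ℕ} (ht : 1 ≤ t) (hn : 2 * t + 1 ≤ n) (π : Perm (Fin n))
    (hπ : Perm.sign π = 1) (h3 : π.support.card ≤ 3) :
    ∃ l : List (Perm (Fin n)), l.prod = π ∧ l.length ≤ 2 ∧
      ∀ c ∈ l, c.IsCycle ∧ c.support.card = 2 * t + 1 := by
  by_cases h1 : π = 1
  · exact ⟨[], by simp [h1], by simp, by simp⟩
  · have h4 := Perm.two_le_card_support_of_ne_one h1
    have h5 : π.support.card ≠ 2 := by
      intro h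
      have h5 : π.IsSwap := Perm.card_support_eq_two.mp h
      rw [h5.sign_eq] at hπ
      exact absurd hπ (by decide)
    have h6 : π.support.card = 3 := by omega
    have h7 : π.IsThreeCycle := card_support_eq_three_iff.1 h6
    obtain ⟨a, b, ha, hb, hab⟩ := split_cycle (i := 1) le_rfl ht hn π h7.isCycle (by omega)
    refine ⟨[a, b], by simp [hab], by simp, ?_⟩
    intro c hc
    simp only [List.mem_cons, List.not_mem_nil, or_false] at hc
    rcases hc with rfl | rfl
    · exact ha
    · exact hb

/-- One step of the second phase. -/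
theorem step {n t : ℕ} (hn : 2 * t + 1 ≤ n) (π : Perm (Fin n))
    (hπ : Perm.sign π = 1) (h3 : 4 ≤ π.support.card) (h4 : π.support.card ≤ 3 * t) :
    ∃ (a b ρ : Perm (Fin n)), (a.IsCycle ∧ a.support.card = 2 * t + 1) ∧
      (b.IsCycle ∧ b.support.card = 2 * t + 1) ∧ Perm.sign ρ = 1 ∧
      ρ.support.card + (π.support.card - 1) / 3 ≤ π.support.card ∧ a * b * ρ = π := by
  obtain ⟨c, hc, hcc, h5⟩ := big_step (t := (π.support.card - 1) / 3) (by omega) π (by omega)
  obtain ⟨a, b, ha, hb, hab⟩ := split_cycle (i := (π.support.card - 1) / 3) (t := t)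
    (by omega) (by omega) hn c hc hcc
  refine ⟨b⁻¹, a⁻¹, c * π, ⟨hb.1.inv, by rw [Perm.support_inv, hb.2]⟩,
    ⟨ha.1.inv, by rw [Perm.support_inv, ha.2]⟩, ?_, h5, ?_⟩
  · rw [map_mul, sign_odd hc hcc, hπ, one_mul]
  · rw [← hab]; group

/-- The second phase. -/
theorem sort_mid {n t : ℕ} (ht : 1 ≤ t) (hn : 2 * t + 1 ≤ n) (k : ℕ) :
    ∀ π : Perm (Fin n), Perm.sign π = 1 → π.support.card ≤ 3 * t →
      π.support.card < 2 ^ k + 3 →
    ∃ l : List (Perm (Fin n)), l.prod = π ∧ l.length ≤ 4 * k + 2 ∧
      ∀ c ∈ l, c.IsCycle ∧ c.support.card = 2 * t + 1 := by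
  induction k with
  | zero =>
    intro π hπ _ h
    obtain ⟨l, h1, h2, h3⟩ := sort_three ht hn π hπ (by omega)
    exact ⟨l, h1, by omega, h3⟩
  | succ k ih =>
    intro π hπ h1 h
    rw [pow_succ] at h
    rcases Nat.lt_or_ge π.support.card 4 with h4 | h4
    · obtain ⟨l, h1, h2, h3⟩ := sort_three ht hn π hπ (by omega)
      exact ⟨l, h1, by omega, h3⟩
    · obtain ⟨a, b, ρ, ha, hb, hρ, hρc, hab⟩ := step hn π hπ h4 h1
      rcases Nat.lt_or_ge ρ.support.card 4 with h5 | h5
      · obtain ⟨l, g1, g2, g3⟩ := sort_three ht hn ρ hρ (by omega)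
        refine ⟨a :: b :: l, ?_, ?_, ?_⟩
        · rw [List.prod_cons, List.prod_cons, g1, ← mul_assoc, hab]
        · simp only [List.length_cons]; omega
        · intro x hx
          rw [List.mem_cons, List.mem_cons] at hx
          rcases hx with rfl | rfl | hx
          · exact ha
          · exact hb
          · exact g3 x hx
      · obtain ⟨a', b', ρ', ha', hb', hρ', hρc', hab'⟩ := step hn ρ hρ h5 (by omega)
        obtain ⟨l, g1, g2, g3⟩ := ih ρ' hρ' (by omega) (by omega)
        refine ⟨a :: b :: a' :: b' :: l, ?_, ?_, ?_⟩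
        · rw [List.prod_cons, List.prod_cons, List.prod_cons, List.prod_cons, g1, ← hab, ← hab']
          group
        · simp only [List.length_cons]; omega
        · intro x hx
          simp only [List.mem_cons] at hx
          rcases hx with rfl | rfl | rfl | rfl | hx
          · exact ha
          · exact hb
          · exact ha'
          · exact hb'
          · exact g3 x hx

theorem sort_phase {n t k : ℕ} (ht : 1 ≤ t) (hn : 2 * t + 1 ≤ n) (hk : 3 * t < 2 ^ k + 3)
    (m : ℕ) :
    ∀ π : Perm (Fin n), Perm.sign π = 1 → π.support.card ≤ m →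
    ∃ l : List (Perm (Fin n)), l.prod = π ∧
      t * l.length ≤ π.support.card + t * (4 * k + 2) ∧
      ∀ c ∈ l, c.IsCycle ∧ c.support.card = 2 * t + 1 := by
  induction m with
  | zero =>
    intro π _ hm
    have : π = 1 := by
      rw [← Perm.support_eq_empty_iff, ← card_eq_zero]; omega
    exact ⟨[], by simp [this], by simp, by simp⟩
  | succ m ih =>
    intro π hπ hm
    by_cases h1 : 3 * t + 1 ≤ π.support.card
    · obtain ⟨c, hc, hcc, h2⟩ := big_step ht π h1
      obtain ⟨l, hl, hlen, hall⟩ := ih (c * π) (by rw [map_mul, sign_odd hc hcc, hπ, one_mul])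
        (by omega)
      refine ⟨c⁻¹ :: l, ?_, ?_, ?_⟩
      · rw [List.prod_cons, hl]; group
      · rw [List.length_cons, mul_add, mul_one]; omega
      · intro x hx
        rw [List.mem_cons] at hx
        rcases hx with rfl | hx
        · exact ⟨hc.inv, by rw [Perm.support_inv, hcc]⟩
        · exact hall x hx
    · obtain ⟨l, hl, hlen, hall⟩ := sort_mid ht hn k π hπ (by omega) (by omega)
      refine ⟨l, hl, ?_, hall⟩
      have := Nat.mul_le_mul_left t hlen
      omega

/-- Packet D1. -/
theorem sort_log {n t : ℕ} (ht : 1 ≤ t) (hn : 2 * t + 1 ≤ n) (π : Perm (Fin n))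
    (hπ : Perm.sign π = 1) : ∃ l : List (Perm (Fin n)), l.prod = π ∧
      t * l.length ≤ n + 40 * t * (Nat.log 2 n + 1) ∧
      ∀ c ∈ l, c.IsCycle ∧ c.support.card = 2 * t + 1 := by
  have h0 : n < 2 ^ (Nat.log 2 n + 1) := Nat.lt_pow_succ_log_self (by norm_num) n
  have hk : 3 * t < 2 ^ (Nat.log 2 n + 2) + 3 := by
    rw [pow_succ]; omega
  obtain ⟨l, h1, h2, h3⟩ := sort_phase ht hn hk _ π hπ le_rfl
  refine ⟨l, h1, ?_, h3⟩
  have h4 : π.support.card ≤ n := by
    have := card_le_univ π.support
    rwa [Fintype.card_fin] at this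
  calc t * l.length ≤ π.support.card + t * (4 * (Nat.log 2 n + 2) + 2) := h2
    _ ≤ n + t * (40 * (Nat.log 2 n + 1)) := by
        gcongr
        omega
    _ = n + 40 * t * (Nat.log 2 n + 1) := by ring

end Pool.Agent.Helper96.W
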